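import Mathlib

/-!
# MP_be8317_an : the operator version of Alzer's additive mean inequality is true

For strictly positive operators `A₁, …, Aₙ ≤ ½ I` on a complex Hilbert space one has
`𝐀'ₙ - 𝐆'ₙ ≤ 𝐀ₙ - 𝐆ₙ`.
-/

namespace Pool.Agent.Results.MP_be8317_an.OperatorAlzer

open MeasureTheory Set Filter Real
open scoped NNReal Topology

variable {H : Type*} [NormedAddCommGroup H] [InnerProductSpace ℂ H] [CompleteSpace H]

/-- `Φ_t(X, Y) = Y^{1/2} (Y^{-1/2} X Y^{-1/2})^t Y^{1/2}` (powers by the continuous functional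
calculus). -/
noncomputable def Phi (t : ℝ) (X Y : H →L[ℂ] H) : H →L[ℂ] H :=
  Y ^ (1 / 2 : ℝ) * (Y ^ (-(1 / 2) : ℝ) * X * Y ^ (-(1 / 2) : ℝ)) ^ t * Y ^ (1 / 2 : ℝ)

/-- The recursive geometric mean `𝐆_m` of a nonempty list of operators:
`𝐆_1(X) = X` and `𝐆_m(X_1, …, X_m) = Φ_{1/m}(X_1, 𝐆_{m-1}(X_2, …, X_m))`. -/
noncomputable def gmean : List (H →L[ℂ] H) → (H →L[ℂ] H)
  | [] => 1
  | [X] => X
  | X :: Y :: L => Phi (1 / ((L.length : ℝ) + 2)) X (gmean (Y :: L))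

/-- The arithmetic mean of a list of operators. -/
noncomputable def amean (L : List (H →L[ℂ] H)) : H →L[ℂ] H :=
  ((L.length : ℝ)⁻¹) • L.sum

/-! ### Quadratic forms -/

/-- `Q T x = Re ⟨T x, x⟩`. -/
noncomputable def Q (T : H →L[ℂ] H) (x : H) : ℝ := (inner ℂ (T x) x).re

lemma Q_add (S T : H →L[ℂ] H) (x : H) : Q (S + T) x = Q S x + Q T x := by
  simp [Q, inner_add_left]

lemma Q_sub (S T : H →L[ℂ] H) (x : H) : Q (S - T) x = Q S x - Q T x := by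
  simp [Q, inner_sub_left]

lemma Q_smul (c : ℝ) (T : H →L[ℂ] H) (x : H) : Q (c • T) x = c * Q T x := by
  have : (c • T) x = (c : ℂ) • T x := by simp
  rw [Q, this, inner_smul_left]
  simp [Q]

lemma Q_one (x : H) : Q (1 : H →L[ℂ] H) x = ‖x‖ ^ 2 := by
  have h1 : (1 : H →L[ℂ] H) x = x := rfl
  rw [Q, h1]
  exact inner_self_eq_norm_sq (𝕜 := ℂ) x

lemma Q_vec_smul (c : ℝ) (T : H →L[ℂ] H) (x : H) : Q T (c • x) = c ^ 2 * Q T x := by
  have : c • x = (c : ℂ) • x := by simp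
  rw [Q, this, map_smul, inner_smul_left, inner_smul_right]
  simp [Q]
  ring

lemma Q_nonneg {T : H →L[ℂ] H} (hT : 0 ≤ T) (x : H) : 0 ≤ Q T x := by
  have := (ContinuousLinearMap.nonneg_iff_isPositive T).1 hT
  exact this.re_inner_nonneg_left x

/-- self-adjoint move -/
lemma inner_sa {T : H →L[ℂ] H} (hT : IsSelfAdjoint T) (x y : H) :
    inner ℂ (T x) y = inner ℂ x (T y) := by
  have := ContinuousLinearMap.adjoint_inner_right T x y
  rw [← this]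
  congr 2

/-- `Q (S T S) x = Q T (S x)` for self-adjoint `S`. -/
lemma Q_conj {S : H →L[ℂ] H} (hS : IsSelfAdjoint S) (T : H →L[ℂ] H) (x : H) :
    Q (S * T * S) x = Q T (S x) := by
  have h1 : (S * T * S) x = S (T (S x)) := rfl
  rw [Q, Q, h1, inner_sa hS]

/-- the variational inequality -/
lemma lemma_K {R N : H →L[ℂ] H} {s : ℝ} (hs : 0 < s) (hR : 0 ≤ R) (hN : IsSelfAdjoint N)
    (hSN : (1 + s⁻¹ • R) * N = 1) (u w : H) :
    ‖u - w‖ ^ 2 + s⁻¹ * Q R w - Q (1 - N) u = Q (1 + s⁻¹ • R) (w - N u) := by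
  have hRsa : IsSelfAdjoint R := hR.isSelfAdjoint
  have hSsa : IsSelfAdjoint (1 + s⁻¹ • R) := by
    refine IsSelfAdjoint.add (IsSelfAdjoint.one _) ?_
    exact IsSelfAdjoint.smul (by simp [IsSelfAdjoint]) hRsa
  have hSNu : (1 + s⁻¹ • R) (N u) = u := by
    have := congrArg (fun T : H →L[ℂ] H => T u) hSN
    simpa using this
  set S := 1 + s⁻¹ • R with hS
  have e1 : Q S (w - N u) = Q S w - (inner ℂ u w).re - (inner ℂ u w).re + (inner ℂ u (N u)).re := by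
    simp only [Q, map_sub, inner_sub_left, inner_sub_right, hSNu, Complex.sub_re]
    rw [inner_sa hSsa w (N u), hSNu]
    have : (inner ℂ w u).re = (inner ℂ u w).re := by
      exact inner_re_symm (𝕜 := ℂ) w u
    rw [this]; ring
  have e2 : Q S w = ‖w‖ ^ 2 + s⁻¹ * Q R w := by
    rw [hS, Q_add, Q_one, Q_smul]
  have e3 : ‖u - w‖ ^ 2 = ‖u‖ ^ 2 - 2 * (inner ℂ u w).re + ‖w‖ ^ 2 := by
    have := norm_sub_sq (𝕜 := ℂ) u w
    simpa using this
  have e4 : Q (1 - N) u = ‖u‖ ^ 2 - (inner ℂ u (N u)).re := by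
    rw [Q_sub, Q_one, Q, inner_sa hN]
  rw [e1, e2, e3, e4]
  ring

/-! ### The operators `h_s` -/

/-- `R = Y^{-1/2} X Y^{-1/2}` -/
noncomputable def Rop (X Y : H →L[ℂ] H) : H →L[ℂ] H :=
  Y ^ (-(1 / 2) : ℝ) * X * Y ^ (-(1 / 2) : ℝ)

/-- `N = (1 + R/s)⁻¹` -/
noncomputable def Nop (s : ℝ) (R : H →L[ℂ] H) : H →L[ℂ] H :=
  cfc (fun x : ℝ => s / (s + x)) R

/-- `h_s(X,Y) = Y^{1/2} (1 - N) Y^{1/2}` -/
noncomputable def hop (s : ℝ) (X Y : H →L[ℂ] H) : H →L[ℂ] H :=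
  Y ^ (1 / 2 : ℝ) * (1 - Nop s (Rop X Y)) * Y ^ (1 / 2 : ℝ)

lemma sa_rpow (Y : H →L[ℂ] H) (t : ℝ) : IsSelfAdjoint (Y ^ t) :=
  (CFC.rpow_nonneg (a := Y) (y := t)).isSelfAdjoint

lemma Rop_pos {X Y : H →L[ℂ] H} (hX : IsStrictlyPositive X) (hY : IsStrictlyPositive Y) :
    IsStrictlyPositive (Rop X Y) := by
  unfold Rop
  exact IsStrictlyPositive.conjugate_of_isUnit_of_isSelfAdjoint X _
    (hY.isUnit.cfcRpow _ hY.nonneg) (sa_rpow _ _) hX

lemma Nop_sa (s : ℝ) (R : H →L[ℂ] H) : IsSelfAdjoint (Nop s R) :=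
  cfc_predicate _ _

lemma spec_nonneg {R : H →L[ℂ] H} (hR : 0 ≤ R) : ∀ x ∈ spectrum ℝ R, 0 ≤ x := by
  intro x hx
  exact spectrum_nonneg_of_nonneg hR hx

lemma Nop_mul {s : ℝ} (hs : 0 < s) {R : H →L[ℂ] H} (hR : 0 ≤ R) :
    (1 + s⁻¹ • R) * Nop s R = 1 := by
  have hRsa : IsSelfAdjoint R := hR.isSelfAdjoint
  have h0 := spec_nonneg hR
  have h1 : (1 + s⁻¹ • R) = cfc (fun x : ℝ => 1 + s⁻¹ * x) R := by
    rw [cfc_const_add (1 : ℝ) (fun x => s⁻¹ * x) R, cfc_const_mul_id s⁻¹ R]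
    simp
  rw [h1, Nop, ← cfc_mul (fun x : ℝ => 1 + s⁻¹ * x) (fun x : ℝ => s / (s + x)) R
    (by fun_prop) ?_]
  · have : cfc (fun x : ℝ => (1 + s⁻¹ * x) * (s / (s + x))) R = cfc (fun _ : ℝ => (1:ℝ)) R := by
      refine cfc_congr ?_
      intro x hx
      have := h0 x hx
      have h2 : s + x ≠ 0 := by positivity
      field_simp
    rw [this, cfc_const_one ℝ R]
  · refine ContinuousOn.div continuousOn_const (by fun_prop) ?_
    intro x hx
    have := h0 x hx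
    positivity

lemma sqrt_facts {Y : H →L[ℂ] H} (hY : IsStrictlyPositive Y) :
    Y ^ (1 / 2 : ℝ) * Y ^ (1 / 2 : ℝ) = Y ∧ Y ^ (1 / 2 : ℝ) * Y ^ (-(1 / 2) : ℝ) = 1 ∧
      Y ^ (-(1 / 2) : ℝ) * Y ^ (1 / 2 : ℝ) = 1 := by
  refine ⟨?_, CFC.rpow_mul_rpow_neg (1 / 2) hY, CFC.rpow_neg_mul_rpow (1 / 2) hY⟩
  rw [← CFC.rpow_add hY.isUnit]
  norm_num
  exact CFC.rpow_one Y hY.nonneg

lemma Q_sqrt {Y : H →L[ℂ] H} (hY : IsStrictlyPositive Y) (x : H) :
    ‖(Y ^ (1 / 2 : ℝ)) x‖ ^ 2 = Q Y x := by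
  have h1 : Q (Y ^ (1 / 2 : ℝ) * 1 * Y ^ (1 / 2 : ℝ)) x = Q 1 ((Y ^ (1 / 2 : ℝ)) x) :=
    Q_conj (sa_rpow _ _) _ _
  rw [Q_one, mul_one, (sqrt_facts hY).1] at h1
  exact h1.symm

lemma Q_Rop {X Y : H →L[ℂ] H} (hY : IsStrictlyPositive Y) (x : H) :
    Q (Rop X Y) ((Y ^ (1 / 2 : ℝ)) x) = Q X x := by
  have h1 : Q (Y ^ (1 / 2 : ℝ) * Rop X Y * Y ^ (1 / 2 : ℝ)) x
      = Q (Rop X Y) ((Y ^ (1 / 2 : ℝ)) x) := Q_conj (sa_rpow _ _) _ _
  rw [← h1]
  congr 1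
  obtain ⟨-, h2, h3⟩ := sqrt_facts hY
  calc Y ^ (1 / 2 : ℝ) * Rop X Y * Y ^ (1 / 2 : ℝ)
      = (Y ^ (1 / 2 : ℝ) * Y ^ (-(1 / 2) : ℝ)) * X * (Y ^ (-(1 / 2) : ℝ) * Y ^ (1 / 2 : ℝ)) := by
        unfold Rop; noncomm_ring
    _ = X := by rw [h2, h3]; simp

/-- identity behind (a) and (b) -/
lemma hop_id {s : ℝ} (hs : 0 < s) {X Y : H →L[ℂ] H} (hX : IsStrictlyPositive X)
    (hY : IsStrictlyPositive Y) (y1 y2 : H) :
    Q Y y1 + s⁻¹ * Q X y2 - Q (hop s X Y) (y1 + y2)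
      = Q (1 + s⁻¹ • Rop X Y) ((Y ^ (1 / 2 : ℝ)) y2
          - Nop s (Rop X Y) ((Y ^ (1 / 2 : ℝ)) (y1 + y2))) := by
  have hR := (Rop_pos hX hY).nonneg
  rw [← lemma_K hs hR (Nop_sa _ _) (Nop_mul hs hR) ((Y ^ (1 / 2 : ℝ)) (y1 + y2))
    ((Y ^ (1 / 2 : ℝ)) y2)]
  rw [Q_Rop hY, ← map_sub]
  have h1 : y1 + y2 - y2 = y1 := by abel
  rw [h1, Q_sqrt hY, hop, Q_conj (sa_rpow _ _)]

lemma hop_le {s : ℝ} (hs : 0 < s) {X Y : H →L[ℂ] H} (hX : IsStrictlyPositive X)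
    (hY : IsStrictlyPositive Y) (y1 y2 : H) :
    Q (hop s X Y) (y1 + y2) ≤ Q Y y1 + s⁻¹ * Q X y2 := by
  have h1 := hop_id hs hX hY y1 y2
  have hR := (Rop_pos hX hY).nonneg
  have h2 : 0 ≤ Q (1 + s⁻¹ • Rop X Y) ((Y ^ (1 / 2 : ℝ)) y2
          - Nop s (Rop X Y) ((Y ^ (1 / 2 : ℝ)) (y1 + y2))) := by
    apply Q_nonneg
    have : 0 ≤ s⁻¹ • Rop X Y := smul_nonneg (by positivity) hR
    exact add_nonneg zero_le_one this
  linarith

lemma hop_eq {s : ℝ} (hs : 0 < s) {X Y : H →L[ℂ] H} (hX : IsStrictlyPositive X)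
    (hY : IsStrictlyPositive Y) (x : H) :
    ∃ x1 x2 : H, x = x1 + x2 ∧ Q (hop s X Y) x = Q Y x1 + s⁻¹ * Q X x2 := by
  set w := (Y ^ (-(1 / 2) : ℝ)) (Nop s (Rop X Y) ((Y ^ (1 / 2 : ℝ)) x)) with hw
  refine ⟨x - w, w, by abel, ?_⟩
  have h1 := hop_id hs hX hY (x - w) w
  have h2 : x - w + w = x := by abel
  rw [h2] at h1
  have h3 : (Y ^ (1 / 2 : ℝ)) w = Nop s (Rop X Y) ((Y ^ (1 / 2 : ℝ)) x) := by
    have := congrArg (fun T : H →L[ℂ] H => T (Nop s (Rop X Y) ((Y ^ (1 / 2 : ℝ)) x)))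
      (sqrt_facts hY).2.1
    rw [hw]
    simpa using this
  rw [h3, sub_self] at h1
  have h4 : Q (1 + s⁻¹ • Rop X Y) (0 : H) = 0 := by simp [Q]
  rw [h4] at h1
  linarith

/-- The key property of the pair `(A, C)` with defect `e`. -/
def P (A C e : H →L[ℂ] H) : Prop :=
  ∀ x y : H, (1 / 2) * Q e (x + y) ≤ Q C x - (1 / 2) * ‖x‖ ^ 2 + (1 / 2) * ‖y‖ ^ 2 - Q A y

lemma norm_sq_diff (x y z : H) (h : x + y = z) :
    ‖x‖ ^ 2 - ‖y‖ ^ 2 = (inner ℂ z (x - y)).re := by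
  subst h
  have h1 : (inner ℂ x y).re = (inner ℂ y x).re := inner_re_symm (𝕜 := ℂ) x y
  have h2 : (inner ℂ x x).re = ‖x‖ ^ 2 := inner_self_eq_norm_sq (𝕜 := ℂ) x
  have h3 : (inner ℂ y y).re = ‖y‖ ^ 2 := inner_self_eq_norm_sq (𝕜 := ℂ) y
  simp only [inner_add_left, inner_sub_right, Complex.add_re, Complex.sub_re, h1, h2, h3]
  ring

lemma re_smul_left (c : ℝ) (x y : H) : (inner ℂ (c • x) y).re = c * (inner ℂ x y).re := by
  have : c • x = (c : ℂ) • x := by simp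
  rw [this, inner_smul_left]
  simp

lemma hop_main {s : ℝ} (hs : 0 < s) {AX CX eX AY CY eY : H →L[ℂ] H}
    (hAX : IsStrictlyPositive AX) (hCX : IsStrictlyPositive CX)
    (hAY : IsStrictlyPositive AY) (hCY : IsStrictlyPositive CY)
    (hX : P AX CX eX) (hY : P AY CY eY) (x y : H) :
    (1 / (2 * (1 + s))) * (‖x‖ ^ 2 - ‖y‖ ^ 2)
      + (1 / 2) * (1 / (1 + s) ^ 2) * Q eY (x + y) + (1 / 2) * (s / (1 + s) ^ 2) * Q eX (x + y)
      ≤ Q (hop s CX CY) x - Q (hop s AX AY) y := by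
  obtain ⟨x1, x2, hx, hq⟩ := hop_eq hs hCX hCY x
  set z := x + y with hz
  set y1 : H := (1 / (1 + s)) • z - x1 with hy1
  set y2 : H := (s / (1 + s)) • z - x2 with hy2
  have h1s : (1 + s) ≠ 0 := by positivity
  have hy : y = y1 + y2 := by
    have e1 : y1 + y2 = (1 / (1 + s) + s / (1 + s)) • z - (x1 + x2) := by
      rw [hy1, hy2, add_smul]; abel
    have e2 : (1 / (1 + s) + s / (1 + s)) = 1 := by field_simp
    rw [e1, e2, one_smul, ← hx, hz]; abel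
  have hle := hop_le hs hAX hAY y1 y2
  rw [← hy] at hle
  have a1 : x1 + y1 = (1 / (1 + s)) • z := by rw [hy1]; abel
  have a2 : x2 + y2 = (s / (1 + s)) • z := by rw [hy2]; abel
  have p1 := hY x1 y1
  have p2 := hX x2 y2
  rw [a1, Q_vec_smul] at p1
  rw [a2, Q_vec_smul] at p2
  have n1 := norm_sq_diff x1 y1 _ a1
  have n2 := norm_sq_diff x2 y2 _ a2
  have n3 := norm_sq_diff x y z rfl
  have i1 : (inner ℂ ((1 / (1 + s)) • z) (x1 - y1)).re = (1 / (1 + s)) * (inner ℂ z (x1 - y1)).re :=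
    re_smul_left _ _ _
  have i2 : (inner ℂ ((s / (1 + s)) • z) (x2 - y2)).re = (s / (1 + s)) * (inner ℂ z (x2 - y2)).re :=
    re_smul_left _ _ _
  have i3 : (inner ℂ z (x - y)).re = (inner ℂ z (x1 - y1)).re + (inner ℂ z (x2 - y2)).re := by
    rw [← Complex.add_re, ← inner_add_right]
    congr 2
    rw [hx, hy]; abel
  rw [i1] at n1
  rw [i2] at n2
  rw [i3] at n3
  rw [hq]
  rw [n3]
  have p2' := mul_le_mul_of_nonneg_left p2 (by positivity : 0 ≤ s⁻¹)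
  set a := (inner ℂ z (x1 - y1)).re
  set b := (inner ℂ z (x2 - y2)).re
  have k1 : s⁻¹ * (1 / 2 * ((s / (1 + s)) ^ 2 * Q eX z)) = (1 / 2) * (s / (1 + s) ^ 2) * Q eX z := by
    field_simp
  have k2 : 1 / 2 * ((1 / (1 + s)) ^ 2 * Q eY z) = (1 / 2) * (1 / (1 + s) ^ 2) * Q eY z := by
    field_simp
  rw [k1] at p2'
  rw [k2] at p1
  have k3 : s⁻¹ * (Q CX x2 - 1 / 2 * ‖x2‖ ^ 2 + 1 / 2 * ‖y2‖ ^ 2 - Q AX y2)
      = s⁻¹ * Q CX x2 - s⁻¹ * Q AX y2 - 1 / 2 * (s⁻¹ * (‖x2‖ ^ 2 - ‖y2‖ ^ 2)) := by ring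
  have k4 : s⁻¹ * (‖x2‖ ^ 2 - ‖y2‖ ^ 2) = (1 / (1 + s)) * b := by
    rw [n2]; field_simp
  rw [k3, k4] at p2'
  have k5 : 1 / (2 * (1 + s)) * (a + b) = 1 / 2 * ((1 / (1 + s)) * a) + 1 / 2 * ((1 / (1 + s)) * b) := by
    field_simp
  rw [k5]
  linarith

/-! ### Integral representation -/

/-- The operator integral representation, with a measure which works for the scalars too
(the proof follows Mathlib's `CFC.exists_measure_nnrpow_eq_integral_cfcₙ_rpowIntegrand₀₁`). -/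
lemma op_integral {p : ℝ≥0} (hp : p ∈ Ioo 0 1) (μ : Measure ℝ)
    (hμ : ∀ x ∈ Ici (0:ℝ), (IntegrableOn (fun t => rpowIntegrand₀₁ p t x) (Ioi 0) μ)
      ∧ x ^ (p : ℝ) = ∫ t in Ioi 0, rpowIntegrand₀₁ p t x ∂μ) (a : H →L[ℂ] H) (ha : 0 ≤ a) :
    (IntegrableOn (fun t => cfcₙ (rpowIntegrand₀₁ p t) a) (Ioi 0) μ)
      ∧ a ^ p = ∫ t in Ioi 0, cfcₙ (rpowIntegrand₀₁ p t) a ∂μ := by
  have p_pos : 0 < (p : ℝ) := by exact_mod_cast hp.1
  let f t := rpowIntegrand₀₁ p t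
  let maxr := sSup (quasispectrum ℝ a)
  have maxr_nonneg : 0 ≤ maxr :=
    le_csSup_of_le (b := 0) (IsCompact.bddAbove (quasispectrum.isCompact _)) (by simp) le_rfl
  let bound (t : ℝ) := ‖f t maxr‖
  have hnn : ∀ z ∈ quasispectrum ℝ a, 0 ≤ z := fun z hz => quasispectrum_nonneg_of_nonneg a ha z hz
  have hf : ContinuousOn (Function.uncurry f) (Ioi (0 : ℝ) ×ˢ quasispectrum ℝ a) := by
    refine continuousOn_rpowIntegrand₀₁_uncurry ?_ (quasispectrum ℝ a) ?_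
    · exact ⟨by exact_mod_cast hp.1, by exact_mod_cast hp.2⟩
    · intro z hz; exact hnn z hz
  have hpp : (p : ℝ) ∈ Ioo (0:ℝ) 1 := ⟨by exact_mod_cast hp.1, by exact_mod_cast hp.2⟩
  have hbound : ∀ᵐ t ∂μ.restrict (Ioi 0), ∀ z ∈ quasispectrum ℝ a, ‖f t z‖ ≤ bound t := by
    filter_upwards [ae_restrict_mem measurableSet_Ioi] with t ht
    intro z hz
    have hz' : 0 ≤ z := hnn z hz
    unfold bound f
    rw [Real.norm_of_nonneg (rpowIntegrand₀₁_nonneg p_pos (le_of_lt ht) hz'),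
        Real.norm_of_nonneg (rpowIntegrand₀₁_nonneg p_pos (le_of_lt ht) maxr_nonneg)]
    refine rpowIntegrand₀₁_monotoneOn hpp (le_of_lt ht) hz' maxr_nonneg ?_
    exact le_csSup (IsCompact.bddAbove (quasispectrum.isCompact _)) hz
  have hbound_finite_integral : HasFiniteIntegral bound (μ.restrict (Ioi 0)) := by
    rw [hasFiniteIntegral_norm_iff]
    exact (hμ maxr maxr_nonneg).1.2
  have hmapzero : ∀ᵐ (x : ℝ) ∂μ.restrict (Ioi 0), rpowIntegrand₀₁ p x 0 = 0 := by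
    filter_upwards [ae_restrict_mem measurableSet_Ioi]
    simp
  refine ⟨?integrable, ?integral⟩
  case integrable =>
    exact integrableOn_cfcₙ measurableSet_Ioi _ bound a hf hmapzero hbound hbound_finite_integral
  case integral => calc
    a ^ p = cfcₙ (fun r => ∫ t in Ioi 0, rpowIntegrand₀₁ p t r ∂μ) a := by
      rw [CFC.nnrpow_eq_cfcₙ_real _ _]
      exact cfcₙ_congr fun r hr ↦ (hμ r (hnn r hr)).2
    _ = _ := cfcₙ_setIntegral measurableSet_Ioi _ bound a hf hmapzero hbound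
                hbound_finite_integral ha.isSelfAdjoint

lemma cfc_integrand {t s : ℝ} (ht : t ∈ Ioo (0:ℝ) 1) (hs : 0 < s) {R : H →L[ℂ] H} (hR : 0 ≤ R) :
    cfcₙ (rpowIntegrand₀₁ t s) R = s ^ (t - 1) • (1 - Nop s R) := by
  have hRsa : IsSelfAdjoint R := hR.isSelfAdjoint
  have h0 := spec_nonneg hR
  have hc : ContinuousOn (fun x : ℝ => s / (s + x)) (spectrum ℝ R) := by
    refine ContinuousOn.div continuousOn_const (by fun_prop) ?_
    intro x hx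
    have := h0 x hx
    positivity
  have hcont : ContinuousOn (rpowIntegrand₀₁ t s) (quasispectrum ℝ R) := by
    refine (continuousOn_rpowIntegrand₀₁_Ici ht hs).mono ?_
    intro z hz
    exact quasispectrum_nonneg_of_nonneg R hR z hz
  rw [cfcₙ_eq_cfc (hf := hcont) (hf0 := rpowIntegrand₀₁_zero_right)]
  have h1 : cfc (rpowIntegrand₀₁ t s) R = cfc (fun x : ℝ => s ^ (t - 1) * (1 - s / (s + x))) R := by
    refine cfc_congr ?_
    intro x hx
    have hx0 := h0 x hx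
    have h2 : s + x ≠ 0 := by positivity
    change rpowIntegrand₀₁ t s x = s ^ (t - 1) * (1 - s / (s + x))
    rw [rpowIntegrand₀₁_eq_pow_div ht hs.le hx0]
    field_simp
    ring
  rw [h1, cfc_const_mul (s ^ (t - 1)) (fun x : ℝ => 1 - s / (s + x)) R (by fun_prop)]
  congr 1
  rw [cfc_sub (fun _ : ℝ => (1:ℝ)) (fun x : ℝ => s / (s + x)) R (by fun_prop) hc,
    cfc_const_one ℝ R]
  rfl

lemma w_integrable {t : ℝ} (ht : t ∈ Ioo (0:ℝ) 1) (μ : Measure ℝ)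
    (hμ : ∀ x ∈ Ici (0:ℝ), (IntegrableOn (fun s => rpowIntegrand₀₁ t s x) (Ioi 0) μ)
      ∧ x ^ t = ∫ s in Ioi 0, rpowIntegrand₀₁ t s x ∂μ) :
    IntegrableOn (fun s => rpowIntegrand₀₁ t s 1 * (s / (1 + s))) (Ioi 0) μ ∧
    ∫ s in Ioi 0, rpowIntegrand₀₁ t s 1 * (s / (1 + s)) ∂μ = t := by
  have h1 := (hμ 1 (by simp)).1
  have hcont : ContinuousOn (fun s : ℝ => s / (1 + s)) (Ioi 0) := by
    refine ContinuousOn.div continuousOn_id (by fun_prop) ?_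
    intro x hx
    have : (0:ℝ) < x := hx
    positivity
  have hint : IntegrableOn (fun s => rpowIntegrand₀₁ t s 1 * (s / (1 + s))) (Ioi 0) μ := by
    refine Integrable.mono' h1 (h1.aestronglyMeasurable.mul
      (hcont.aestronglyMeasurable measurableSet_Ioi)) ?_
    filter_upwards [ae_restrict_mem measurableSet_Ioi] with s hs
    have hs0 : (0:ℝ) < s := hs
    have hf := rpowIntegrand₀₁_nonneg ht.1 hs0.le (zero_le_one (α := ℝ))
    rw [norm_mul, Real.norm_of_nonneg hf, Real.norm_of_nonneg (by positivity)]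
    have : s / (1 + s) ≤ 1 := by rw [div_le_one (by positivity)]; linarith
    nlinarith
  refine ⟨hint, ?_⟩
  set T := ∫ s in Ioi 0, rpowIntegrand₀₁ t s 1 * (s / (1 + s)) ∂μ with hT
  have hle : ∀ x : ℝ, 0 ≤ x → x ^ t ≤ 1 + (x - 1) * T := by
    intro x hx
    have e1 : 1 + (x - 1) * T = ∫ s in Ioi 0, (rpowIntegrand₀₁ t s 1
        + (x - 1) * (rpowIntegrand₀₁ t s 1 * (s / (1 + s)))) ∂μ := by
      rw [integral_add h1 (hint.const_mul _), integral_const_mul, ← (hμ 1 (by simp)).2, one_rpow]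
    rw [e1, (hμ x hx).2]
    refine setIntegral_mono_on (hμ x hx).1 (h1.add (hint.const_mul _)) measurableSet_Ioi ?_
    intro s hs
    have hs0 : (0:ℝ) < s := hs
    rw [rpowIntegrand₀₁_eq_pow_div ht hs0.le hx, rpowIntegrand₀₁_eq_pow_div ht hs0.le zero_le_one]
    have hc : 0 < s ^ (t - 1) := by positivity
    have h2 : x / (s + x) ≤ 1 / (s + 1) + (x - 1) * (1 / (s + 1) * (s / (1 + s))) := by
      have h3 : 0 < s + x := by positivity
      have : 1 / (s + 1) + (x - 1) * (1 / (s + 1) * (s / (1 + s))) - x / (s + x)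
          = s * (x - 1) ^ 2 / ((s + x) * (1 + s) ^ 2) := by
        field_simp
        ring
      have h4 : 0 ≤ s * (x - 1) ^ 2 / ((s + x) * (1 + s) ^ 2) := by positivity
      linarith
    calc s ^ (t - 1) * x / (s + x) = s ^ (t - 1) * (x / (s + x)) := by ring
      _ ≤ s ^ (t - 1) * (1 / (s + 1) + (x - 1) * (1 / (s + 1) * (s / (1 + s)))) :=
          mul_le_mul_of_nonneg_left h2 hc.le
      _ = _ := by ring
  have hmin : IsLocalMin (fun x : ℝ => 1 + (x - 1) * T - x ^ t) 1 := by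
    filter_upwards [Ioi_mem_nhds (zero_lt_one (α := ℝ))] with x hx
    have := hle x (le_of_lt hx)
    simp only [one_rpow]
    linarith
  have hder : HasDerivAt (fun x : ℝ => 1 + (x - 1) * T - x ^ t) (T - t) 1 := by
    have d1 : HasDerivAt (fun x : ℝ => x ^ t) (t * 1 ^ (t - 1)) 1 :=
      Real.hasDerivAt_rpow_const (Or.inl one_ne_zero)
    have d2 : HasDerivAt (fun x : ℝ => 1 + (x - 1) * T) T 1 := by
      have := (((hasDerivAt_id (1:ℝ)).sub_const 1).mul_const T).const_add 1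
      simpa using this
    have d3 := d2.sub d1
    rw [one_rpow, mul_one] at d3
    exact d3
  have := hmin.hasDerivAt_eq_zero hder
  linarith

/-- `T ↦ Q T u` as a real continuous linear functional. -/
noncomputable def QL (u : H) : (H →L[ℂ] H) →L[ℝ] ℝ :=
  LinearMap.mkContinuous
    { toFun := fun T => Q T u
      map_add' := fun S T => Q_add S T u
      map_smul' := fun c T => Q_smul c T u } (‖u‖ ^ 2) (by
        intro T
        have h1 : |(inner ℂ (T u) u).re| ≤ ‖inner ℂ (T u) u‖ := Complex.abs_re_le_norm _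
        have h2 : ‖inner ℂ (T u) u‖ ≤ ‖T u‖ * ‖u‖ := norm_inner_le_norm _ _
        have h3 : ‖T u‖ ≤ ‖T‖ * ‖u‖ := T.le_opNorm u
        have h4 : ‖T u‖ * ‖u‖ ≤ ‖T‖ * ‖u‖ * ‖u‖ := mul_le_mul_of_nonneg_right h3 (norm_nonneg _)
        change |(inner ℂ (T u) u).re| ≤ ‖u‖ ^ 2 * ‖T‖
        calc |(inner ℂ (T u) u).re| ≤ ‖T‖ * ‖u‖ * ‖u‖ := by linarith
          _ = _ := by ring)

lemma QL_apply (u : H) (T : H →L[ℂ] H) : QL u T = Q T u := rfl

lemma Phi_integral {t : ℝ} (ht : t ∈ Ioo (0:ℝ) 1) (μ : Measure ℝ)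
    (hμ : ∀ x ∈ Ici (0:ℝ), (IntegrableOn (fun s => rpowIntegrand₀₁ t s x) (Ioi 0) μ)
      ∧ x ^ t = ∫ s in Ioi 0, rpowIntegrand₀₁ t s x ∂μ)
    {X Y : H →L[ℂ] H} (hX : IsStrictlyPositive X) (hY : IsStrictlyPositive Y) (x : H) :
    IntegrableOn (fun s => s ^ (t - 1) * Q (hop s X Y) x) (Ioi 0) μ ∧
    ∫ s in Ioi 0, s ^ (t - 1) * Q (hop s X Y) x ∂μ = Q (Phi t X Y) x := by
  have hR := (Rop_pos hX hY).nonneg
  let p : ℝ≥0 := ⟨t, ht.1.le⟩
  have hp : p ∈ Ioo (0 : ℝ≥0) 1 := ⟨by exact_mod_cast ht.1, by exact_mod_cast ht.2⟩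
  obtain ⟨hi, he⟩ := op_integral hp μ hμ (Rop X Y) hR
  have hpos : (0 : ℝ≥0) < p := hp.1
  rw [CFC.nnrpow_eq_rpow hpos] at he
  set u := (Y ^ (1 / 2 : ℝ)) x with hu
  have key : ∀ s ∈ Ioi (0:ℝ), QL u (cfcₙ (rpowIntegrand₀₁ t s) (Rop X Y))
      = s ^ (t - 1) * Q (hop s X Y) x := by
    intro s hs
    rw [QL_apply, cfc_integrand ht hs hR, Q_smul, hop, Q_conj (sa_rpow _ _)]
  have hi2 : IntegrableOn (fun s => QL u (cfcₙ (rpowIntegrand₀₁ t s) (Rop X Y))) (Ioi 0) μ :=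
    (QL u).integrable_comp hi
  refine ⟨hi2.congr_fun key measurableSet_Ioi, ?_⟩
  rw [← setIntegral_congr_fun measurableSet_Ioi key]
  have h1 := (QL u).integral_comp_comm hi
  have h2 : ∫ s in Ioi 0, QL u (cfcₙ (rpowIntegrand₀₁ t s) (Rop X Y)) ∂μ
      = QL u (∫ s in Ioi 0, cfcₙ (rpowIntegrand₀₁ t s) (Rop X Y) ∂μ) := h1
  rw [h2]
  have h3 : (∫ s in Ioi 0, cfcₙ (rpowIntegrand₀₁ t s) (Rop X Y) ∂μ) = (Rop X Y) ^ t := he.symm
  rw [h3, QL_apply, hu, ← Q_conj (sa_rpow _ _)]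
  rfl

lemma P_Phi {t : ℝ} (ht : t ∈ Ioo (0:ℝ) 1) {AX CX eX AY CY eY : H →L[ℂ] H}
    (hAX : IsStrictlyPositive AX) (hCX : IsStrictlyPositive CX)
    (hAY : IsStrictlyPositive AY) (hCY : IsStrictlyPositive CY)
    (hX : P AX CX eX) (hY : P AY CY eY) :
    P (Phi t AX AY) (Phi t CX CY) (t • eX + (1 - t) • eY) := by
  intro x y
  obtain ⟨μ, hμ⟩ := exists_measure_rpow_eq_integral_rpowIntegrand₀₁ ht
  obtain ⟨iC, eC⟩ := Phi_integral ht μ hμ hCX hCY x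
  obtain ⟨iA, eA⟩ := Phi_integral ht μ hμ hAX hAY y
  obtain ⟨iw, ew⟩ := w_integrable ht μ hμ
  have h1 := (hμ 1 (by simp)).1
  have e1 := (hμ 1 (by simp)).2
  rw [one_rpow] at e1
  set z := x + y with hz
  have hlow : ∫ s in Ioi 0, ((1 / 2 * (‖x‖ ^ 2 - ‖y‖ ^ 2) + 1 / 2 * Q eY z) * rpowIntegrand₀₁ t s 1
      + (1 / 2 * (Q eX z - Q eY z)) * (rpowIntegrand₀₁ t s 1 * (s / (1 + s)))) ∂μ
      = (1 / 2 * (‖x‖ ^ 2 - ‖y‖ ^ 2) + 1 / 2 * Q eY z) + (1 / 2 * (Q eX z - Q eY z)) * t := by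
    rw [integral_add (h1.const_mul _) (iw.const_mul _), integral_const_mul, integral_const_mul,
      ← e1, ew, mul_one]
  have hmono : ∫ s in Ioi 0, ((1 / 2 * (‖x‖ ^ 2 - ‖y‖ ^ 2) + 1 / 2 * Q eY z)
        * rpowIntegrand₀₁ t s 1
      + (1 / 2 * (Q eX z - Q eY z)) * (rpowIntegrand₀₁ t s 1 * (s / (1 + s)))) ∂μ
      ≤ ∫ s in Ioi 0, (s ^ (t - 1) * Q (hop s CX CY) x - s ^ (t - 1) * Q (hop s AX AY) y) ∂μ := by
    refine setIntegral_mono_on ((h1.const_mul _).add (iw.const_mul _)) (iC.sub iA)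
      measurableSet_Ioi ?_
    intro s hs
    have hs0 : (0:ℝ) < s := hs
    have hm := hop_main hs0 hAX hCX hAY hCY hX hY x y
    rw [rpowIntegrand₀₁_eq_pow_div ht hs0.le zero_le_one]
    have hc : 0 < s ^ (t - 1) := by positivity
    have h5 := mul_le_mul_of_nonneg_left hm hc.le
    have h6 : (1 / 2 * (‖x‖ ^ 2 - ‖y‖ ^ 2) + 1 / 2 * Q eY z) * (s ^ (t - 1) * 1 / (s + 1))
      + (1 / 2 * (Q eX z - Q eY z)) * ((s ^ (t - 1) * 1 / (s + 1)) * (s / (1 + s)))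
      = s ^ (t - 1) * ((1 / (2 * (1 + s))) * (‖x‖ ^ 2 - ‖y‖ ^ 2)
      + (1 / 2) * (1 / (1 + s) ^ 2) * Q eY (x + y) + (1 / 2) * (s / (1 + s) ^ 2) * Q eX (x + y)) := by
      rw [← hz]
      field_simp
      ring
    rw [h6]
    calc _ ≤ _ := h5
      _ = _ := by ring
  rw [hlow, integral_sub iC iA, eC, eA] at hmono
  rw [Q_add, Q_smul, Q_smul]
  linarith

/-! ### The induction -/

lemma Phi_pos {t : ℝ} {X Y : H →L[ℂ] H} (hX : IsStrictlyPositive X)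
    (hY : IsStrictlyPositive Y) : IsStrictlyPositive (Phi t X Y) := by
  have hR := Rop_pos hX hY
  unfold Phi
  exact IsStrictlyPositive.conjugate_of_isUnit_of_isSelfAdjoint _ _
    (hY.isUnit.cfcRpow _ hY.nonneg) (sa_rpow _ _) (IsStrictlyPositive.rpow (Rop X Y) t hR)

lemma gmean_pos : ∀ (L : List (H →L[ℂ] H)), (∀ X ∈ L, IsStrictlyPositive X) →
    IsStrictlyPositive (gmean L)
  | [], _ => isStrictlyPositive_one
  | [X], h => h X (by simp)
  | X :: Y :: L, h => by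
    rw [gmean]
    exact Phi_pos (h X (by simp)) (gmean_pos (Y :: L) (fun Z hZ => h Z (by simp at hZ ⊢; tauto)))

lemma P_base {A : H →L[ℂ] H} (hA : 0 ≤ (1 / 2 : ℝ) • (1 : H →L[ℂ] H) - A) :
    P A (1 - A) ((1 / 2 : ℝ) • (1 : H →L[ℂ] H) - A) := by
  intro x y
  set δ := (1 / 2 : ℝ) • (1 : H →L[ℂ] H) - A with hδ
  have h1 : 0 ≤ Q δ (x - y) := Q_nonneg hA _
  have h2 : Q δ (x + y) + Q δ (x - y) = 2 * Q δ x + 2 * Q δ y := by
    simp only [Q, map_add, map_sub, inner_add_left, inner_sub_left, inner_add_right,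
      inner_sub_right, Complex.add_re, Complex.sub_re]
    ring
  have h3 : Q δ x = Q (1 - A) x - (1 / 2) * ‖x‖ ^ 2 := by
    rw [hδ, Q_sub, Q_sub, Q_smul, Q_one]; ring
  have h4 : Q δ y = (1 / 2) * ‖y‖ ^ 2 - Q A y := by
    rw [hδ, Q_sub, Q_smul, Q_one]
  linarith

lemma amean_cons (X : H →L[ℂ] H) (L : List (H →L[ℂ] H)) (hL : L ≠ []) :
    amean (X :: L) = (1 / ((L.length : ℝ) + 1)) • X
      + (1 - 1 / ((L.length : ℝ) + 1)) • amean L := by
  have h0 : (L.length : ℝ) ≠ 0 := by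
    have : L.length ≠ 0 := by simpa using hL
    exact_mod_cast this
  have h1 : (L.length : ℝ) + 1 ≠ 0 := by positivity
  unfold amean
  rw [List.sum_cons, List.length_cons, smul_add, smul_smul]
  push_cast
  congr 2
  · rw [one_div]
  · field_simp
    ring

lemma amean_compl (L : List (H →L[ℂ] H)) (hL : L ≠ []) :
    amean (L.map (fun X => 1 - X)) = 1 - amean L := by
  have h0 : (L.length : ℝ) ≠ 0 := by
    have : L.length ≠ 0 := by simpa using hL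
    exact_mod_cast this
  have hs : ∀ M : List (H →L[ℂ] H), (M.map (fun X => 1 - X)).sum
      = (M.length : ℝ) • (1 : H →L[ℂ] H) - M.sum := by
    intro M
    induction M with
    | nil => simp
    | cons X M ih =>
      rw [List.map_cons, List.sum_cons, ih, List.length_cons, List.sum_cons]
      push_cast
      rw [add_smul, one_smul]
      abel
  unfold amean
  rw [hs, List.length_map, smul_sub, smul_smul, inv_mul_cancel₀ h0, one_smul]

lemma P_mean : ∀ (L : List (H →L[ℂ] H)), L ≠ [] →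
    (∀ X ∈ L, IsStrictlyPositive X) → (∀ X ∈ L, IsStrictlyPositive (1 - X)) →
    (∀ X ∈ L, 0 ≤ (1 / 2 : ℝ) • (1 : H →L[ℂ] H) - X) →
    P (gmean L) (gmean (L.map (fun X => 1 - X))) ((1 / 2 : ℝ) • (1 : H →L[ℂ] H) - amean L)
  | [], h, _, _, _ => absurd rfl h
  | [X], _, _, _, h => by
    have h1 : amean [X] = X := by simp [amean]
    rw [h1]
    exact P_base (h X (by simp))
  | X :: Y :: L, _, h1, h2, h3 => by
    have ih := P_mean (Y :: L) (by simp) (fun Z hZ => h1 Z (by simp at hZ ⊢; tauto))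
      (fun Z hZ => h2 Z (by simp at hZ ⊢; tauto)) (fun Z hZ => h3 Z (by simp at hZ ⊢; tauto))
    have hb := P_base (h3 X (by simp))
    set t : ℝ := 1 / ((L.length : ℝ) + 2) with ht
    have hl : (0:ℝ) ≤ L.length := by positivity
    have htm : t ∈ Ioo (0:ℝ) 1 := by
      constructor
      · rw [ht]; positivity
      · rw [ht, div_lt_one (by positivity)]; linarith
    have hp := P_Phi htm (h1 X (by simp)) (h2 X (by simp))
      (gmean_pos (Y :: L) (fun Z hZ => h1 Z (by simp at hZ ⊢; tauto)))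
      (gmean_pos ((Y :: L).map (fun X => 1 - X)) (by
        intro Z hZ
        rw [List.mem_map] at hZ
        obtain ⟨W, hW, rfl⟩ := hZ
        exact h2 W (by simp at hW ⊢; tauto))) hb ih
    have e1 : gmean (X :: Y :: L) = Phi t X (gmean (Y :: L)) := by rw [gmean]
    have e2 : gmean ((X :: Y :: L).map (fun X => 1 - X))
        = Phi t (1 - X) (gmean ((Y :: L).map (fun X => 1 - X))) := by
      simp only [List.map_cons]
      rw [gmean, List.length_map]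
    have e3 : (1 / 2 : ℝ) • (1 : H →L[ℂ] H) - amean (X :: Y :: L)
        = t • ((1 / 2 : ℝ) • (1 : H →L[ℂ] H) - X)
          + (1 - t) • ((1 / 2 : ℝ) • (1 : H →L[ℂ] H) - amean (Y :: L)) := by
      rw [amean_cons X (Y :: L) (by simp)]
      have e4 : 1 / (((Y :: L).length : ℝ) + 1) = t := by
        rw [ht, List.length_cons]; push_cast; ring_nf
      rw [e4, smul_sub, smul_sub, sub_smul, sub_smul]
      simp only [one_smul]
      abel
    rw [e1, e2, e3]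
    exact hp

/-- **The operator version of Alzer's inequality.**  For a list `A₁, …, Aₙ` (`n ≥ 2`) of positive
invertible operators with `Aⱼ ≤ ½ I`, and `A'ⱼ = I - Aⱼ`, the operator
`(𝐀ₙ - 𝐆ₙ) - (𝐀'ₙ - 𝐆'ₙ)` is positive. -/
theorem result {H : Type*} [NormedAddCommGroup H] [InnerProductSpace ℂ H] [CompleteSpace H]
    (L : List (H →L[ℂ] H)) (hn : 2 ≤ L.length)
    (hL : ∀ A ∈ L, A.IsPositive ∧ IsUnit A ∧ ((1 / 2 : ℝ) • (1 : H →L[ℂ] H) - A).IsPositive) :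
    ((amean L - gmean L)
      - (amean (L.map (fun A => 1 - A)) - gmean (L.map (fun A => 1 - A)))).IsPositive := by
  have hne : L ≠ [] := by
    intro h; rw [h] at hn; simp at hn
  have h1 : ∀ X ∈ L, IsStrictlyPositive X := fun X hX =>
    (hL X hX).2.1.isStrictlyPositive ((ContinuousLinearMap.nonneg_iff_isPositive X).2 (hL X hX).1)
  have h3 : ∀ X ∈ L, 0 ≤ (1 / 2 : ℝ) • (1 : H →L[ℂ] H) - X := fun X hX =>
    (ContinuousLinearMap.nonneg_iff_isPositive _).2 (hL X hX).2.2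
  have h2 : ∀ X ∈ L, IsStrictlyPositive (1 - X) := by
    intro X hX
    have hhalf : IsStrictlyPositive ((1 / 2 : ℝ) • (1 : H →L[ℂ] H)) :=
      IsStrictlyPositive.smul (by norm_num) isStrictlyPositive_one
    refine hhalf.of_le ?_
    have e : (1 : H →L[ℂ] H) - X
        = (1 / 2 : ℝ) • (1 : H →L[ℂ] H) + ((1 / 2 : ℝ) • (1 : H →L[ℂ] H) - X) := by
      have : (1 : H →L[ℂ] H) = (1 / 2 : ℝ) • (1 : H →L[ℂ] H) + (1 / 2 : ℝ) • (1 : H →L[ℂ] H) := by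
        rw [← add_smul]; norm_num
      calc (1 : H →L[ℂ] H) - X
          = ((1 / 2 : ℝ) • (1 : H →L[ℂ] H) + (1 / 2 : ℝ) • (1 : H →L[ℂ] H)) - X := by rw [← this]
        _ = _ := by abel
    rw [e]
    exact le_add_of_nonneg_right (h3 X hX)
  have h2' : ∀ X ∈ L.map (fun A => 1 - A), IsStrictlyPositive X := by
    intro Z hZ
    rw [List.mem_map] at hZ
    obtain ⟨W, hW, rfl⟩ := hZ
    exact h2 W hW
  have hP := P_mean L hne h1 h2 h3
  have saG : IsSelfAdjoint (gmean L) := (gmean_pos L h1).nonneg.isSelfAdjoint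
  have saG' : IsSelfAdjoint (gmean (L.map (fun A => 1 - A))) :=
    (gmean_pos _ h2').nonneg.isSelfAdjoint
  have saA : ∀ M : List (H →L[ℂ] H), (∀ X ∈ M, IsStrictlyPositive X) → IsSelfAdjoint (amean M) := by
    intro M hM
    have hs : 0 ≤ M.sum := List.sum_nonneg (fun X hX => (hM X hX).nonneg)
    have : 0 ≤ amean M := smul_nonneg (by positivity) hs
    exact this.isSelfAdjoint
  rw [ContinuousLinearMap.isPositive_def']
  refine ⟨((saA L h1).sub saG).sub ((saA _ h2').sub saG'), ?_⟩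
  intro x
  change 0 ≤ Q _ x
  rw [amean_compl L hne]
  have hx := hP x x
  have h5 : Q ((1 / 2 : ℝ) • (1 : H →L[ℂ] H) - amean L) (x + x)
      = 4 * ((1 / 2) * ‖x‖ ^ 2 - Q (amean L) x) := by
    have : x + x = (2 : ℝ) • x := by rw [two_smul]
    rw [this, Q_vec_smul, Q_sub, Q_smul, Q_one]
    ring
  rw [h5] at hx
  simp only [Q_sub, Q_one]
  linarith

end Pool.Agent.Results.MP_be8317_an.OperatorAlzer
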